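import Pool.Agent.W858.SG.Setup

/-!
# The section conjecture for 100% of the twists over every finitely generated field

Let `k` be any field finitely generated over `ℚ`, that is, the fraction field of a domain `R` of
characteristic zero that is finitely generated as a ring.  Let `f ∈ k[x]` be a separable polynomial
of even degree `≥ 4` such that some element of `Gal(k̄/k)` fixes no root of `f`; this is so for all
irreducible `f`.  Then for all `a ∈ R` outside a set of density zero, the curve `a y² = f(x)`, and
more generally every curve `a yⁿ = f(x)` with `n` even, has no point over `k`, and its fundamental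
group has no section, also when any set of closed points of the curve is removed.  So these curves,
and all smooth curves over `k` that dominate one of them, satisfy the section conjecture.  The set
of the exceptional `a` has density zero in a strong sense: for every `ε > 0` there is an ideal `I`
of `R` of finite index such that the exceptional `a` lie in at most `ε #(R/I)` residue classes
modulo `I`.

For number fields `k` this is the theorem of `MP_2f3286_ag.QuadraticTwists`; the fields `k` of
positive transcendence degree are new.  For them there are no primes of `k` with finite residue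
fields to begin with.

The fundamental group is described through valuations.  Let `U` be a smooth geometrically connected
curve over `k` with function field `F`, let `Ω` be an algebraic closure of `F`, and let `F_U` be the
maximal extension of `F` inside `Ω` which is unramified over the closed points of `U`, that is, over
their local rings, which are valuation rings of `F`.  Then `π₁(U) = Gal(F_U/F)`, and the map
`π₁(U) → G_k` is the restriction of automorphisms to the algebraic closure of `k` in `Ω`.

Proof.  Write `k` as a finite extension of `Q = ℚ(x₁, …, x_m)` and let `E/Q` be a finite Galois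
extension that contains `k` and the roots of `f`.  By Hilbert's irreducibility theorem there is a
point `c ∈ ℚᵐ` at which `E/Q` specialises to a Galois extension of `ℚ` with the same group; it gives
a number field `L`, a homomorphism `P : R → L` and a polynomial `f_P ∈ L[x]`, separable of the same
degree, such that some element of the Galois group of `L` fixes no root of `f_P`.  For almost all
primes `v` of `L` choose algebraically independent elements `τ₁, …, τ_m` of the completion `L_v` that
are congruent to `c₁, …, c_m` modulo `v²`.  By Newton's lemma there is an embedding `ψ : k → L_v` with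
`ψ(xᵢ) = τᵢ` and `ψ(r) ≡ P(r)` modulo `v²` for all `r ∈ R`.  It induces a discrete valuation on `k`
with finite residue field.  By Chebotarev there are many `v` modulo which `f_P` has no root, and if
`P(a)` has valuation one at such a `v`, then the local theorem of `MP_2f3286_ag.QuadraticTwists`,
applied to the valuation ring of `k` given by `ψ`, shows that the curve has no section.  The image
of `R` in `L` contains a multiple of `O_L`, and so almost all `a ∈ R` have this property, by the
Chinese remainder theorem.
-/

open Polynomial

namespace Pool.Agent.Results.MP_e66f84_ag.FunctionFieldTwists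

universe u v w

section definitions

variable (k : Type u) (F : Type v) (Ω : Type w) [Field k] [Field F] [Field Ω] [Algebra k F]
  [Algebra F Ω] [Algebra k Ω]

/-- The inertia group of the valuation ring `W` of `Ω`, as a subgroup of `Gal(Ω/F)`: the
automorphisms of `Ω` over `F` that map `W` onto itself and act as the identity on its residue
field. -/
noncomputable def inertia (W : ValuationSubring Ω) : Subgroup (Ω ≃ₐ[F] Ω) :=
  (W.inertiaSubgroup F).map (W.decompositionSubgroup F).subtype

/-- `F_U`, for a set `U` of valuation rings of `F`: the elements of `Ω` fixed by the inertia groups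
of all valuation rings `W` of `Ω` with `W ∩ F ∈ U`.  If `Ω` is an algebraic closure of a field `F`
of characteristic zero, this is the maximal extension of `F` in `Ω` unramified over `U`. -/
noncomputable def unramified (U : Set (ValuationSubring F)) : IntermediateField F Ω :=
  ⨅ W : {W : ValuationSubring Ω // W.comap (algebraMap F Ω) ∈ U},
    IntermediateField.fixedField (inertia F Ω W.1)

/-- The map `τ : M → M` acts as `σ : K → K` on the elements that the fields `K` and `M` have in
common when they are regarded as subfields of `Ω` through `i` and `j`. -/
def ActsAs {K M Ω : Type*} [Field K] [Field M] [Field Ω] (i : K →+* Ω) (j : M →+* Ω) (σ : K → K)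
    (τ : M → M) : Prop :=
  ∀ c z, j z = i c → j (τ z) = i (σ c)

/-- Let `k ⊆ K ⊆ Ω` and `F ⊆ M ⊆ Ω` be fields.  A splitting of `Gal(M/F) → Gal(K/k)`: a continuous
homomorphism `s` from `Gal(K/k)` to `Gal(M/F)` such that `s(σ)` acts as `σ` on the elements of
`K ∩ M`. -/
structure Splitting (K M : Type*) [Field K] [Field M] [Algebra k K] [Algebra F M] [Algebra K Ω]
    [Algebra M Ω] where
  /-- the homomorphism `Gal(K/k) → Gal(M/F)` -/
  toHom : (K ≃ₐ[k] K) →* (M ≃ₐ[F] M)
  cont : Continuous toHom
  compat : ∀ σ : K ≃ₐ[k] K, ActsAs (algebraMap K Ω) (algebraMap M Ω) σ (toHom σ)

/-- The sections of `π₁(U) = Gal(F_U/F) → G_k`: the continuous homomorphisms `s` from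
`G_k = Gal(k̄/k)` to `Gal(F_U/F)`, where `k̄` is the algebraic closure of `k` in `Ω`, such that
`s(σ)` acts as `σ` on the elements of `k̄`. -/
def GaloisSection (U : Set (ValuationSubring F)) : Type w :=
  Splitting k F Ω (algebraicClosure k Ω) (unramified F Ω U)

end definitions

/-- The smooth projective curve `a yⁿ = f(x)`, where `n` divides the degree of `f`, has no point
over `k`: neither in the affine part nor at infinity. -/
def NoPoint {k : Type u} [Field k] (n : ℕ) (a : k) (f : k[X]) : Prop :=
  (¬ ∃ x y : k, a * y ^ n = f.eval x) ∧ ¬ ∃ r : k, a * r ^ n = f.leadingCoeff

/-- Let `F` be any field over `k` that contains a point `(x, y)` of the curve `a yⁿ = f(x)`, for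
instance the function field of the curve, and let `Ω` be an algebraic closure of `F`.  Then for
every set `U` of valuation rings of `F` over `k` there is no section of `π₁(U) → G_k`.  If `F` is the
function field of the curve, such `U` are given by the smooth projective curve and by all its open
subcurves. -/
def NoSection {k : Type u} [Field k] (n : ℕ) (a : k) (f : k[X]) : Prop :=
  ∀ (F : Type v) (Ω : Type w) [Field F] [Field Ω] [Algebra k F] [Algebra F Ω] [Algebra k Ω]
    [IsScalarTower k F Ω] [IsAlgClosure F Ω] (x y : F) (U : Set (ValuationSubring F)),
    algebraMap k F a * y ^ n = aeval x f → (∀ O ∈ U, ∀ c : k, algebraMap k F c ∈ O) →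
      IsEmpty (GaloisSection k F Ω U)

/-- Some element of the Galois group of `K` fixes no root of `f`. -/
def HasDerangement {K : Type u} [Field K] (f : K[X]) : Prop :=
  ∃ σ : AlgebraicClosure K ≃ₐ[K] AlgebraicClosure K,
    ∀ θ : AlgebraicClosure K, aeval θ f = 0 → σ θ ≠ θ

/-- The elements `a` of `R` such that one of the curves `a yⁿ = f(x)` over `k` with `n ≥ 2` even has a
point or a section. -/
def Exceptional (R : Type) [CommRing R] {k : Type} [Field k] [Algebra R k] (f : k[X]) : Set R :=
  {a | ¬ ∀ n : ℕ, 0 < n → Even n →
    NoPoint n (algebraMap R k a) f ∧ NoSection.{0, v, w} n (algebraMap R k a) f}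

/-- Density zero: for every `ε > 0` there is an ideal `I` of `R` of finite index such that `E` lies
in at most `ε #(R/I)` residue classes modulo `I`. -/
def DensityZero {R : Type} [CommRing R] (E : Set R) : Prop :=
  ∀ ε : ℝ, 0 < ε → ∃ I : Ideal R, Finite (R ⧸ I) ∧
    (Set.ncard ((Ideal.Quotient.mk I) '' E) : ℝ) ≤ ε * Nat.card (R ⧸ I)

/-- Let `R` be a domain of characteristic zero that is finitely generated as a ring, with fraction
field `k`; so `k` is any field finitely generated over `ℚ`.  Let `f` be a separable polynomial over
`k` of even degree at least 4 that is irreducible or, more generally, has a Galois group with an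
element that fixes no root.  Then for all `a ∈ R` outside a set of density zero, for all even
`n ≥ 2`, the curve `a yⁿ = f(x)` has no point over `k`, and the fundamental groups of its open
subcurves and of all smooth curves over `k` that dominate it have no sections. -/
theorem result (R : Type) [CommRing R] [IsDomain R] [CharZero R] [Algebra.FiniteType ℤ R]
    (k : Type) [Field k] [Algebra R k] [IsFractionRing R k] (f : k[X]) (hf : f.Separable)
    (hev : Even f.natDegree) (h4 : 4 ≤ f.natDegree) (h : Irreducible f ∨ HasDerangement f) :
    DensityZero (Exceptional.{v, w} R f) := by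
  have hcz : CharZero k := charZero_of_injective_algebraMap (IsFractionRing.injective R k)
  have hσ : HasDerangement f := by
    rcases h with h | h
    · exact Pool.Agent.W52.SecC.D3.partD3 k f h (by omega)
    · exact h
  intro ε hε
  obtain ⟨I, hI, hIE⟩ := Pool.Agent.W858.SG.density_fg.{v, w} (R := R) f hf hev h4 hσ ε hε
  refine ⟨I, hI, le_trans ?_ hIE⟩
  have hsub : (Exceptional.{v, w} R f : Set R) ⊆
      {a : R | ¬ Pool.Agent.W623.SecC.Fine.{0, v, w} (algebraMap R k a) f} := by
    intro a ha hfine
    obtain ⟨h1, h2, h3⟩ := hfine
    apply ha
    intro n hn hne
    obtain ⟨m, rfl⟩ := hne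
    refine ⟨⟨?_, ?_⟩, ?_⟩
    · rintro ⟨x, y, hxy⟩
      apply h2 x (y ^ m)
      rw [← hxy, ← pow_mul, mul_two]
    · rintro ⟨r, hr⟩
      apply h3 (r ^ m)
      rw [← hr, ← pow_mul, mul_two]
    · intro F Ω _ _ _ _ _ _ _ x y U hxy hU
      have hcl : IsAlgClosed Ω := IsAlgClosure.isAlgClosed F
      have halg : Algebra.IsAlgebraic F Ω := IsAlgClosure.isAlgebraic
      have h4 := h1 F Ω U hU x (y ^ m) (by rw [← hxy, ← pow_mul, mul_two])
      exact ⟨fun s => h4.false ⟨s.toHom, s.cont, s.compat⟩⟩
  exact_mod_cast Set.ncard_le_ncard (Set.image_mono hsub) (Set.toFinite _)

end Pool.Agent.Results.MP_e66f84_ag.FunctionFieldTwists
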