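import Pool.Agent.W623.SecD.Uni

/-!
# Ramified quadratic twists over finitely generated fields have no sections

Let `k` be a field of characteristic zero, for instance a field finitely generated over `ℚ`, `A` a
discrete valuation ring with fraction field `k` and with any residue field, for instance the local
ring of a prime divisor of an arithmetic model of `k`, and `O ⊆ A` a valuation ring of `k`, of any
rank, whose residue field `κ` is finite of odd characteristic or a number field (`O = A` is allowed).
Let `f ∈ O[x]` be a polynomial of even degree `≥ 4` with unit leading coefficient, whose reduction over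
`κ` is separable and has a Galois group with an element that fixes no root; this is so if the
reduction is irreducible, and for finite `κ` if the reduction has no root in `κ`.  Let `a ∈ k` have odd
valuation at `A`.  Then the curve `a y² = f(x)`, and more generally `a yⁿ = f(x)` with `n` even, has
no point over `k`, and its fundamental group has no section, also when any set of closed points of
the curve is removed; and the same is true for all smooth curves over `k` that dominate it.

For instance, let `K` be a number field, `f ∈ K[x]` irreducible of even degree `≥ 4`, or with a Galois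
group as above, and `a ∈ K(t)` a rational function with a zero or pole of odd order at some `K`-rational
point of the projective line.  Then the curve `a(t) y² = f(x)` over `k = K(t)` satisfies the section
conjecture; here `O = A` is the local ring of the point.  At the points with residue field `κ` one
needs that some element of the Galois group of `κ` fixes no root of `f`.

The fundamental group is described through valuations.  Let `U` be a smooth geometrically connected
curve over `k` with function field `F`, let `Ω` be an algebraic closure of `F`, and let `F_U` be the
maximal extension of `F` inside `Ω` which is unramified over the closed points of `U`, that is, over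
their local rings, which are valuation rings of `F`.  Then `π₁(U) = Gal(F_U/F)`, and the map
`π₁(U) → G_k` is the restriction of automorphisms to the algebraic closure of `k` in `Ω`.


Proof.  If `κ` is a number field, then by Chebotarev there is a prime `p` of `κ` modulo which the
reduction of `f` is separable without a root; replace `O` by its composite with the valuation ring
of `p`.  So let `κ` be finite.  Let `V' ⊆ V` be valuation rings of `k̄` above `O` and `A`, stable under
an element of the Galois group that acts as Frobenius on the residue field of `V'`.  Let `S` be a
subfield of `k̄` stable under Frobenius, containing the roots `θ` of `f` and the square roots of its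
`V`-units, whose value group for `V` is the one of `k`.  For two roots the function `(x - θ)/(x - θ')`
has a square root in `F_U`; being fixed by `s(G_S)`, it is `π^j β²` with `β` fixed by `s(G_S)`, where
`π` is a uniformiser of `A`.  The parities of the `j` define a partition of the roots in two classes
with an odd number of elements, stable under Frobenius.  If both classes have at least three
elements, take four roots, two in each class.  They give an elliptic curve
`w² = (z - e₀)(z - e₁)(z - e₂)` with good reduction and a point `(z, w)` fixed by `s(G_S)` and by
`s(φ)` for a power `φ` of Frobenius, such that some `z - e_i` has odd parity.  The functions with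
divisor `2ⁿ(P - ∞)`, for the points `P` of order dividing `2ⁿ`, have `2ⁿ`-th roots in `F_U`, and this
gives a homomorphism from the group of these points to `ℤ/2ⁿ` which is invariant under `φ`.  As only
finitely many points of order a power of `2` are fixed by `φ`, as one sees in the residue field of
`V'`, it is killed by an integer that does not depend on `n`, and so the parities of the `z - e_i` are
even, which is a contradiction.  So one of the classes has one element, which is fixed by Frobenius,
and the reduction of `f` has a root in `κ`.
-/

open Polynomial

namespace Pool.Agent.Results.MP_e66f84_ag.HigherRank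

universe u u' v w

section definitions

variable (k : Type u) (F : Type v) (Ω : Type w) [Field k] [Field F] [Field Ω] [Algebra k F]
  [Algebra F Ω] [Algebra k Ω]

/-- The inertia group of the valuation ring `W` of `Ω`, as a subgroup of `Gal(Ω/F)`: the
automorphisms of `Ω` over `F` that map `W` onto itself and act as the identity on its residue
field. -/
noncomputable def inertia (W : ValuationSubring Ω) : Subgroup (Ω ≃ₐ[F] Ω) :=
  (W.inertiaSubgroup F).map (W.decompositionSubgroup F).subtype

/-- `F_U`, for a set `U` of valuation rings of `F`: the elements of `Ω` fixed by the inertia groups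
of all valuation rings `W` of `Ω` with `W ∩ F ∈ U`.  If `Ω` is an algebraic closure of a field `F`
of characteristic zero, this is the maximal extension of `F` in `Ω` unramified over `U`. -/
noncomputable def unramified (U : Set (ValuationSubring F)) : IntermediateField F Ω :=
  ⨅ W : {W : ValuationSubring Ω // W.comap (algebraMap F Ω) ∈ U},
    IntermediateField.fixedField (inertia F Ω W.1)

/-- The map `τ : M → M` acts as `σ : K → K` on the elements that the fields `K` and `M` have in
common when they are regarded as subfields of `Ω` through `i` and `j`. -/
def ActsAs {K M Ω : Type*} [Field K] [Field M] [Field Ω] (i : K →+* Ω) (j : M →+* Ω) (σ : K → K)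
    (τ : M → M) : Prop :=
  ∀ c z, j z = i c → j (τ z) = i (σ c)

/-- Let `k ⊆ K ⊆ Ω` and `F ⊆ M ⊆ Ω` be fields.  A splitting of `Gal(M/F) → Gal(K/k)`: a continuous
homomorphism `s` from `Gal(K/k)` to `Gal(M/F)` such that `s(σ)` acts as `σ` on the elements of
`K ∩ M`. -/
structure Splitting (K M : Type*) [Field K] [Field M] [Algebra k K] [Algebra F M] [Algebra K Ω]
    [Algebra M Ω] where
  /-- the homomorphism `Gal(K/k) → Gal(M/F)` -/
  toHom : (K ≃ₐ[k] K) →* (M ≃ₐ[F] M)
  cont : Continuous toHom
  compat : ∀ σ : K ≃ₐ[k] K, ActsAs (algebraMap K Ω) (algebraMap M Ω) σ (toHom σ)

/-- The sections of `π₁(U) = Gal(F_U/F) → G_k`: the continuous homomorphisms `s` from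
`G_k = Gal(k̄/k)` to `Gal(F_U/F)`, where `k̄` is the algebraic closure of `k` in `Ω`, such that
`s(σ)` acts as `σ` on the elements of `k̄`. -/
def GaloisSection (U : Set (ValuationSubring F)) : Type w :=
  Splitting k F Ω (algebraicClosure k Ω) (unramified F Ω U)

end definitions

/-- The smooth projective curve `a yⁿ = f(x)`, where `n` divides the degree of `f`, has no point
over `k`: neither in the affine part nor at infinity. -/
def NoPoint {k : Type u} [Field k] (n : ℕ) (a : k) (f : k[X]) : Prop :=
  (¬ ∃ x y : k, a * y ^ n = f.eval x) ∧ ¬ ∃ r : k, a * r ^ n = f.leadingCoeff

/-- Let `F` be any field over `k` that contains a point `(x, y)` of the curve `a yⁿ = f(x)`, for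
instance the function field of the curve, and let `Ω` be an algebraic closure of `F`.  Then for
every set `U` of valuation rings of `F` over `k` there is no section of `π₁(U) → G_k`.  If `F` is the
function field of the curve, such `U` are given by the smooth projective curve and by all its open
subcurves. -/
def NoSection {k : Type u} [Field k] (n : ℕ) (a : k) (f : k[X]) : Prop :=
  ∀ (F : Type v) (Ω : Type w) [Field F] [Field Ω] [Algebra k F] [Algebra F Ω] [Algebra k Ω]
    [IsScalarTower k F Ω] [IsAlgClosure F Ω] (x y : F) (U : Set (ValuationSubring F)),
    algebraMap k F a * y ^ n = aeval x f → (∀ O ∈ U, ∀ c : k, algebraMap k F c ∈ O) →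
      IsEmpty (GaloisSection k F Ω U)

/-- Some element of the Galois group of `κ` fixes no root of `g`. -/
def HasDerangement {κ : Type u'} [Field κ] (g : κ[X]) : Prop :=
  ∃ σ : AlgebraicClosure κ ≃ₐ[κ] AlgebraicClosure κ,
    ∀ θ : AlgebraicClosure κ, aeval θ g = 0 → σ θ ≠ θ

/-- `a` has odd valuation: it is the product of a unit and an odd power of a uniformiser of `A`. -/
def OddValuation {k : Type u} [Field k] (A : ValuationSubring k) (a : k) : Prop :=
  ∃ (ϖ t : A) (m : ℤ), Irreducible ϖ ∧ IsUnit t ∧ Odd m ∧ a = (t : k) * (ϖ : k) ^ m

/-- Let `k` be a field of characteristic zero, `A` a discrete valuation ring of `k`, `O ⊆ A` a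
valuation ring of `k` with residue field `κ` finite of odd characteristic or a number field.  Let
`f ∈ O[x]` have even degree `≥ 4` and unit leading coefficient, and let its reduction over `κ` be
separable and irreducible, or separable with an element of its Galois group that fixes no root.  Let
`a ∈ k` have odd valuation at `A` and let `n ≥ 2` be even.  Then the curve `a yⁿ = f(x)` has no point
over `k` and no section. -/
theorem result (k : Type u) [Field k] [CharZero k] (O A : ValuationSubring k) (hOA : O ≤ A)
    [IsDiscreteValuationRing A] (κ : Type u') [Field κ] (ρ : O →+* κ) (hρ : Function.Surjective ρ)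
    (hκ : (Finite κ ∧ (2 : κ) ≠ 0) ∨ NumberField κ) (f : O[X]) (hlc : IsUnit f.leadingCoeff)
    (hs : (f.map ρ).Separable) (hev : Even f.natDegree) (h4 : 4 ≤ f.natDegree)
    (hd : Irreducible (f.map ρ) ∨ HasDerangement (f.map ρ)) (a : k) (ha : OddValuation A a)
    (n : ℕ) (hn : 0 < n) (hne : Even n) :
    NoPoint n a (f.map (algebraMap O k)) ∧ NoSection.{u, v, w} n a (f.map (algebraMap O k)) := by
  have hdeg : (f.map ρ).natDegree = f.natDegree :=
    natDegree_map_of_leadingCoeff_ne_zero _ (hlc.map ρ).ne_zero
  have hσ : HasDerangement (f.map ρ) := by
    rcases hd with h | h
    · exact Pool.Agent.W623.SecC.irreducible_derangement hκ _ h (by omega)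
    · exact h
  obtain ⟨ϖ, t, m, hϖ, ht, hm, ha⟩ := ha
  obtain ⟨l, rfl⟩ := hne
  have hinf : ∀ r : k, a * r ^ 2 ≠ (f.map (algebraMap O k)).leadingCoeff :=
    Pool.Agent.W623.SecC.no_infinite_pointB O A hOA f hlc ϖ hϖ a t ht m hm ha
  refine ⟨⟨?_, ?_⟩, ?_⟩
  · rintro ⟨x, y, hxy⟩
    refine Pool.Agent.W623.SecC.uni_no_point O A hOA ρ hρ hκ f hlc hs hσ ϖ hϖ a t ht m hm ha hev x
      (y ^ l) ?_
    rw [← hxy, ← pow_mul, mul_two]
  · rintro ⟨r, hr⟩
    refine hinf (r ^ l) ?_
    rw [← hr, ← pow_mul, mul_two]
  · intro F Ω _ _ _ _ _ _ _ x y U hxy hU
    have hcl : IsAlgClosed Ω := IsAlgClosure.isAlgClosed F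
    have halg : Algebra.IsAlgebraic F Ω := IsAlgClosure.isAlgebraic
    have h5 := Pool.Agent.W623.SecC.uni_no_section (F := F) (Ω := Ω) O A hOA ρ hρ hκ f hlc hs hσ ϖ hϖ
      a t ht m hm ha hev h4 U hU x (y ^ l) (by rw [← hxy, ← pow_mul, mul_two])
    exact ⟨fun s => h5.false ⟨s.toHom, s.cont, s.compat⟩⟩

end Pool.Agent.Results.MP_e66f84_ag.HigherRank
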