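import Pool.Agent.W623.SecF.FV
import Pool.Agent.W623.SecH.KtB
import Pool.Agent.W290.SecH.PlaceX
import Pool.Agent.W303.SH.Stabx
import Pool.Agent.W335.SHU.Uniqx
import Pool.Agent.W460.SH.EvenB
import Pool.Agent.W976.SecH.Ktsq
import Pool.Agent.W351.SH.Kt
import Pool.Agent.W999.SH.Trans
import Pool.Agent.W863.SH.PlaceKt
import Pool.Agent.W63.SH.Points

/-!
# The section conjecture modulo 2 for the curves `t y² = f(x)` over `K(t)`

Let `K` be a finitely generated field of characteristic zero, `k = K(t)` the rational function field,
`f ∈ K[X]` separable of even degree `≥ 4` (for genus at least 2: `≥ 6`) and `C` the smooth projective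
curve `t y² = f(x)` over `k`, the twist of the constant curve `y² = f(x)` by `√t`.  Its only
`k`-rational points are the points `(θ, 0)`, where `θ ∈ K` is a root of `f`.

Let `F = k(x, y)`, let `F_U` be the maximal extension of `F` unramified over `U`, where `U` is `C` or
an open subcurve, so that `π₁(U) = Gal(F_U/F)`, and let `M₂ ⊆ F_U` be the extension of `F` generated by
the elements algebraic over `k` and the square roots of the functions `(x - α)/(x - β)`, `α` and
`β` roots of `f`; they generate the maximal abelian extension of exponent 2 of `F k̄` that is unramified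
over `C`.

The theorem: for every section `s : G_k → π₁(U)` there is exactly one rational point `(θ, 0)` of `C`,
such that the image of `s` in `Gal(M₂/F)` lies in the decomposition group of a prolongation to `M₂` of
the valuation of `F` at this point.  This is the conclusion of the section conjecture (and, for
empty `U`, of the birational section conjecture) for `C`, with `Gal(M₂/F)` instead of `π₁(C)`; it holds
for the sections that lift to `π₁(C)`.

The fundamental group is described through valuations.  Let `U` be a smooth geometrically connected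
curve over `k` with function field `F`, let `Ω` be an algebraic closure of `F`, and let `F_U` be the
maximal extension of `F` inside `Ω` which is unramified over the closed points of `U`, that is, over
their local rings, which are valuation rings of `F`.  Then `π₁(U) = Gal(F_U/F)`, and the map
`π₁(U) → G_k` is the restriction of automorphisms to the algebraic closure of `k` in `Ω`.

Proof.  The section gives square classes `s_{αβ}` of the field `k' = k K̄`, such that
`s_{αβ} (x - α)(x - β)` is the square of an element of `F_U` fixed by the elements over `k'`.  The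
theory of sections at a place of good reduction (parts SecC to SecF of helper623) applied to the
places of `k K'` over the closed points of the affine line over `K` different from `0`, shows that
the `s_{αβ}` have even valuations there; hence they are `1` or `t` modulo squares.  At `t = 0` and
at `t = ∞` it shows that there are canonical square roots.  The Galois group of `K̄` over `K`,
with the transition between the places, gives a root `θ ∈ K` of `f` such that the square roots of
`(x - α)/(x - β) · (θ - β)/(θ - α)` transform under the section as constants.  They have expansions in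
powers of the local parameter `y` at `(θ, 0)`, and this gives the valuation of `M₂`.
-/

open Polynomial

namespace Pool.Agent.Results.MP_e66f84_ag.ModTwo

universe u v w

section definitions

variable (k : Type u) (F : Type v) (Ω : Type w) [Field k] [Field F] [Field Ω] [Algebra k F]
  [Algebra F Ω] [Algebra k Ω]

/-- The inertia group of the valuation ring `W` of `Ω`, as a subgroup of `Gal(Ω/F)`: the
automorphisms of `Ω` over `F` that map `W` onto itself and act as the identity on its residue
field. -/
noncomputable def inertia (W : ValuationSubring Ω) : Subgroup (Ω ≃ₐ[F] Ω) :=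
  (W.inertiaSubgroup F).map (W.decompositionSubgroup F).subtype

/-- `F_U`, for a set `U` of valuation rings of `F`: the elements of `Ω` fixed by the inertia groups
of all valuation rings `W` of `Ω` with `W ∩ F ∈ U`.  If `Ω` is an algebraic closure of a field `F`
of characteristic zero, this is the maximal extension of `F` in `Ω` unramified over `U`. -/
noncomputable def unramified (U : Set (ValuationSubring F)) : IntermediateField F Ω :=
  ⨅ W : {W : ValuationSubring Ω // W.comap (algebraMap F Ω) ∈ U},
    IntermediateField.fixedField (inertia F Ω W.1)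

/-- The map `τ : M → M` acts as `σ : K → K` on the elements that the fields `K` and `M` have in
common when they are regarded as subfields of `Ω` through `i` and `j`. -/
def ActsAs {K M Ω : Type*} [Field K] [Field M] [Field Ω] (i : K →+* Ω) (j : M →+* Ω) (σ : K → K)
    (τ : M → M) : Prop :=
  ∀ c z, j z = i c → j (τ z) = i (σ c)

/-- Let `k ⊆ K ⊆ Ω` and `F ⊆ M ⊆ Ω` be fields.  A splitting of `Gal(M/F) → Gal(K/k)`: a continuous
homomorphism `s` from `Gal(K/k)` to `Gal(M/F)` such that `s(σ)` acts as `σ` on the elements of
`K ∩ M`. -/
structure Splitting (K M : Type*) [Field K] [Field M] [Algebra k K] [Algebra F M] [Algebra K Ω]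
    [Algebra M Ω] where
  /-- the homomorphism `Gal(K/k) → Gal(M/F)` -/
  toHom : (K ≃ₐ[k] K) →* (M ≃ₐ[F] M)
  cont : Continuous toHom
  compat : ∀ σ : K ≃ₐ[k] K, ActsAs (algebraMap K Ω) (algebraMap M Ω) σ (toHom σ)

/-- The sections of `π₁(U) = Gal(F_U/F) → G_k`: the continuous homomorphisms `s` from
`G_k = Gal(k̄/k)` to `Gal(F_U/F)`, where `k̄` is the algebraic closure of `k` in `Ω`, such that
`s(σ)` acts as `σ` on the elements of `k̄`. -/
abbrev GaloisSection (U : Set (ValuationSubring F)) : Type w :=
  Splitting k F Ω (algebraicClosure k Ω) (unramified F Ω U)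

end definitions

section attached

variable {k F M : Type*} [Field k] [Field F] [Field M] [Algebra k F] (j : F →+* M) (f : k[X])
  (x : F)

/-- `z` is algebraic over `k`, where `k` is mapped to `M` by `i`. -/
def AlgOver {k M : Type*} [Field k] [Field M] (i : k →+* M) (z : M) : Prop :=
  ∃ p : k[X], p ≠ 0 ∧ p.eval₂ i z = 0

/-- The subfield `M₂` of the extension `M` of `F`, generated over `F` by all elements of `M` that are
algebraic over `k`, and by all square roots in `M` of the functions `(x - a)/(x - b)`, where `a` and
`b` are roots of `f` in `M`. -/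
def M₂ : Subfield M :=
  Subfield.closure (Set.range j ∪ {z | AlgOver (j.comp (algebraMap k F)) z} ∪
    {z | ∃ a b : M, f.eval₂ (j.comp (algebraMap k F)) a = 0 ∧
      f.eval₂ (j.comp (algebraMap k F)) b = 0 ∧ z ^ 2 * (j x - b) = j x - a})

/-- The valuation ring `W` of `M` contains `k`, the function `t` is in its maximal ideal, and the
residue field of `W ∩ F` is `k`. -/
def LiesAbove (W : ValuationSubring M) (t : F) : Prop :=
  (∀ c : k, j (algebraMap k F c) ∈ W) ∧ j t ∈ W.nonunits ∧
    ∀ z : F, j z ∈ W → ∃ c : k, j (z - algebraMap k F c) ∈ W.nonunits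

/-- The splitting `s` of `Gal(M/F) → Gal(L/k)` is attached modulo 2 to the branch point
`(θ, 0)`: there is a valuation ring `W` of `M` above this point, such that the image of `s` lies in
the decomposition group of `W ∩ M₂`. -/
def Attached {L Ω : Type*} [Field L] [Field Ω] [Algebra F Ω] [Algebra k Ω] [Algebra k L]
    [Algebra F M] [Algebra L Ω] [Algebra M Ω] (s : Splitting k F Ω L M) (θ : k) : Prop :=
  ∃ W : ValuationSubring M, LiesAbove (k := k) (algebraMap F M) W (x - algebraMap k F θ) ∧
    ∀ z ∈ M₂ (algebraMap F M) f x, ∀ σ, s.toHom σ z ∈ W ↔ z ∈ W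

end attached

/-- Let `F` be the function field of the curve `a y² = f(x)` over `k`, and let `Ω` be an
algebraic closure of `F`.  For every set `U` of valuation rings of `F` over `k` and every section of
`π₁(U) → G_k` there is exactly one root `θ ∈ k` of `f` such that the section is attached modulo 2 to
the branch point `(θ, 0)`.  Such `U` are given by the smooth projective curve and by all its open
subcurves. -/
def SectionsAttached {k : Type u} [Field k] (f : k[X]) (a : k) : Prop :=
  ∀ (F : Type v) (Ω : Type w) [Field F] [Field Ω] [Algebra k F] [Algebra F Ω] [Algebra k Ω]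
    [IsScalarTower k F Ω] [IsAlgClosure F Ω] (x y : F) (U : Set (ValuationSubring F)),
    Transcendental k x → algebraMap k F a * y ^ 2 = aeval x f →
    IntermediateField.adjoin k {x, y} = (⊤ : IntermediateField k F) →
    (∀ O ∈ U, ∀ c : k, algebraMap k F c ∈ O) →
    ∀ s : GaloisSection k F Ω U, ∃! θ : k, f.eval θ = 0 ∧ Attached f x s θ

/-- The field `κ` is finitely generated (over its prime field). -/
def FGField (κ : Type) [Field κ] : Prop := ∃ s : Finset κ, Subfield.closure (s : Set κ) = ⊤


lemma M₂_eq {k : Type u} {F : Type v} {Ω : Type w} [Field k] [Field F] [Field Ω] [Algebra k F]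
    [Algebra F Ω] [Algebra k Ω] [IsScalarTower k F Ω] (U : Set (ValuationSubring F))
    (f : k[X]) (x : F) : M₂ (algebraMap F (unramified F Ω U)) f x =
      Pool.Agent.W623.SecH.Mtw Ω U x f := by
  have h1 : (algebraMap F (unramified F Ω U)).comp (algebraMap k F) =
      algebraMap k (unramified F Ω U) := by
    ext c
    exact (IsScalarTower.algebraMap_apply k F Ω c).symm
  unfold M₂ AlgOver
  rw [h1]
  rfl

/-- from canonical square roots to attached sections -/
lemma attached_of {k : Type u} [Field k] [CharZero k] (f : k[X]) (a : k)
    (hex : ∀ (F : Type v) (Ω : Type w) [Field F] [Field Ω] [Algebra k F] [Algebra F Ω]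
      [Algebra k Ω] [IsScalarTower k F Ω] [IsAlgClosed Ω] [Algebra.IsAlgebraic F Ω]
      (U : Set (ValuationSubring F)) (hU : ∀ O ∈ U, ∀ c : k, algebraMap k F c ∈ O)
      (G : Pool.Agent.W620.SC.GSection k F Ω U) (x y : F), Transcendental k x →
      algebraMap k F a * y ^ 2 = aeval x f →
      Pool.Agent.W623.SecH.Canon hU G x y f Set.univ) : SectionsAttached.{u, v, w} f a := by
  intro F Ω _ _ _ _ _ _ _ x y U hx hxy hF hU s
  have hcl : IsAlgClosed Ω := IsAlgClosure.isAlgClosed F
  have halg : Algebra.IsAlgebraic F Ω := IsAlgClosure.isAlgebraic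
  have hcan := hex F Ω U hU ⟨s.toHom, s.cont, s.compat⟩ x y hx hxy
  obtain ⟨θ, hθ, W, h1, h2, h3, h4⟩ := Pool.Agent.W623.SecH.att
    Pool.Agent.W290.SecH.placex.{w, w, w} Pool.Agent.W303.SH.stabx.{w, w, w} hU
    ⟨s.toHom, s.cont, s.compat⟩ f x y hx hF hcan
  have hM := M₂_eq (Ω := Ω) U f x
  refine ⟨θ, ⟨hθ, W, ⟨h1, h2, h3⟩, fun z hz => ?_⟩, ?_⟩
  · rw [hM] at hz
    exact h4 z hz
  · rintro θ' ⟨hθ', W', ⟨h1', h2', -⟩, h4'⟩
    exact Pool.Agent.W623.SecH.att_unique Pool.Agent.W335.SHU.uniqx.{w, w, w} hU
      ⟨s.toHom, s.cont, s.compat⟩ f x y hx hcan θ' θ hθ' hθ W' W h1' h2'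
      (fun z hz => h4' z (by rw [hM]; exact hz)) h1 h2 h4

lemma exists_val {κ : Type} [Field κ] (h : FGField κ) :
    ∀ S : Finset κ, ∃ O : ValuationSubring κ, Finite (IsLocalRing.ResidueField O) ∧
      (2 : κ)⁻¹ ∈ O ∧ ∀ s ∈ S, s ∈ O := by
  classical
  intro S
  obtain ⟨s, hs⟩ := h
  obtain ⟨O, hO, h1⟩ := Pool.Agent.W623.SecF.FV.of_fg s hs (insert (2 : κ)⁻¹ S)
  exact ⟨O, hO, h1 _ (Finset.mem_insert_self _ _), fun s hs => h1 s (Finset.mem_insert_of_mem hs)⟩


/-- All `k`-rational points of the smooth projective curve `t y² = f(x)`, where `f` is a polynomial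
of even degree over the subfield `K` of `k`, are of the form `(θ, 0)`, `θ ∈ K`.  (A rational point at
infinity gives an `r ∈ k` such that `t r²` is the leading coefficient of `f`.) -/
def PointsAreBranchPoints {K : Type} {k : Type u} [Field K] [Field k] [Algebra K k] (f : K[X])
    (t : k) : Prop :=
  (∀ x y : k, t * y ^ 2 = aeval x f → y = 0 ∧ ∃ θ : K, f.eval θ = 0 ∧ algebraMap K k θ = x) ∧
    ∀ r : k, t * r ^ 2 ≠ algebraMap K k f.leadingCoeff

lemma points_all {K : Type} {k : Type u} [Field K] [CharZero K] [Field k] [Algebra K k] (t : k)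
    (ht : Transcendental K t) (htop : IntermediateField.adjoin K {t} = (⊤ : IntermediateField K k))
    (f : K[X]) (hf : f.Separable) (h3 : 3 ≤ f.natDegree) : PointsAreBranchPoints f t := by
  have hP := Pool.Agent.W63.SH.Points.points.{u} K k t ht htop
  refine ⟨fun x y h => hP f hf h3 x y h, ?_⟩
  intro r hr
  have hc : f.leadingCoeff ≠ 0 := by
    rw [leadingCoeff_ne_zero]
    rintro rfl
    simp at h3
  have hdeg : (X ^ 3 + C f.leadingCoeff : K[X]).natDegree = 3 := natDegree_X_pow_add_C
  have hsep : (X ^ 3 + C f.leadingCoeff : K[X]).Separable := by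
    have h1 : (X ^ 3 + C f.leadingCoeff : K[X]) = X ^ 3 - C (-f.leadingCoeff) := by
      rw [map_neg, sub_neg_eq_add]
    rw [h1]
    exact separable_X_pow_sub_C _ (by norm_num) (neg_ne_zero.2 hc)
  obtain ⟨h0, -⟩ := hP _ hsep hdeg.ge 0 r (by
    rw [hr]
    simp)
  rw [h0, zero_pow (by norm_num), mul_zero] at hr
  exact hc ((map_eq_zero _).1 hr.symm)

/-- Let `K` be a finitely generated field of characteristic zero, `k = K(t)` with `t` transcendental
over `K`, and `f ∈ K[X]` separable of even degree `≥ 4`.  Then every section of the fundamental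
group of the curve `t y² = f(x)` over `k`, or of an open subcurve, is attached modulo 2 to exactly one
rational branch point `(θ, 0)`, and these are all the rational points of the smooth projective
curve. -/
theorem result (K : Type) [Field K] [CharZero K] (hK : FGField K) (k : Type u) [Field k]
    [Algebra K k] (t : k) (ht : Transcendental K t)
    (htop : IntermediateField.adjoin K {t} = (⊤ : IntermediateField K k)) (f : K[X])
    (hf : f.Separable) (hev : Even f.natDegree) (h4 : 4 ≤ f.natDegree) :
    SectionsAttached.{u, v, w} (f.map (algebraMap K k)) t ∧ PointsAreBranchPoints f t := by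
  have hchar : CharZero k := charZero_of_injective_algebraMap (algebraMap K k).injective
  refine ⟨attached_of _ _ ?_, points_all t ht htop f hf (by omega)⟩
  intro F Ω _ _ _ _ _ _ _ _ U hU G x y hx hxy
  let _ : Algebra K (algebraicClosure k Ω) :=
    ((algebraMap k (algebraicClosure k Ω)).comp (algebraMap K k)).toAlgebra
  have : IsScalarTower K k (algebraicClosure k Ω) := IsScalarTower.of_algebraMap_eq fun _ => rfl
  exact Pool.Agent.W623.SecH.kt_canon Pool.Agent.W623.SecC.allA7 Pool.Agent.W623.SecC.allA8b
    Pool.Agent.W863.SH.placekt.{u, w} Pool.Agent.W351.SH.repkt.{u, w}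
    Pool.Agent.W351.SH.tamekt.{w, w} (W999.SH.trans Pool.Agent.W351.SH.repkt.{u, w})
    Pool.Agent.W976.SecH.ktsq.{w, w} Pool.Agent.W460.SH.evenb.{w, w, u} U hU G t ht htop hK f hf
    hev h4 x y hxy hx

end Pool.Agent.Results.MP_e66f84_ag.ModTwo
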